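import Pool.Agent.Helper43.GD.St

/-!
Project GD (MP_b3ce06_al), module SD.
-/

set_option autoImplicit false

namespace Pool.Agent.Helper84.GD

open Pool.Agent.Helper43.GD

section
variable {L A : Type} [CommRing L] [Group A]

/-- a representative -/
noncomputable def rp (I : Ideal L) (y : L ⧸ I) : L :=
  Function.surjInv Ideal.Quotient.mk_surjective y

theorem mk_rp (I : Ideal L) (y : L ⧸ I) : Ideal.Quotient.mk I (rp I y) = y :=
  Function.surjInv_eq Ideal.Quotient.mk_surjective y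

theorem eps_eq {ε : L} (hε : ε ^ 2 = ε) {a b : L}
    (h : Ideal.Quotient.mk (Ideal.span {1 - ε}) a = Ideal.Quotient.mk (Ideal.span {1 - ε}) b) :
    ε * a = ε * b := by
  rw [Ideal.Quotient.eq, Ideal.mem_span_singleton'] at h
  obtain ⟨c, hc⟩ := h
  linear_combination (-ε) * hc - c * hε

theorem eps_rp {ε : L} (hε : ε ^ 2 = ε) (a : L) :
    ε * rp (Ideal.span {1 - ε}) (Ideal.Quotient.mk (Ideal.span {1 - ε}) a) = ε * a :=
  eps_eq hε (mk_rp _ _)

/-- the system over the quotient -/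
noncomputable def qs (s : Sys L A) {ε : L} (hε : ε ^ 2 = ε) : Sys (L ⧸ Ideal.span {1 - ε}) A where
  E y := s.E (ε * rp _ y)
  F y := s.F (ε * rp _ y)
  Eadd y z := by
    rw [← s.Eadd, ← mul_add]
    congr 1
    apply eps_eq hε
    rw [map_add, mk_rp, mk_rp, mk_rp]
  Fadd y z := by
    rw [← s.Fadd, ← mul_add]
    congr 1
    apply eps_eq hε
    rw [map_add, mk_rp, mk_rp, mk_rp]

theorem qs_E (s : Sys L A) {ε : L} (hε : ε ^ 2 = ε) (a : L) :
    (qs s hε).E (Ideal.Quotient.mk _ a) = s.E (ε * a) := by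
  show s.E (ε * rp _ _) = _
  rw [eps_rp hε]

theorem qs_F (s : Sys L A) {ε : L} (hε : ε ^ 2 = ε) (a : L) :
    (qs s hε).F (Ideal.Quotient.mk _ a) = s.F (ε * a) := by
  show s.F (ε * rp _ _) = _
  rw [eps_rp hε]

/-- part of the Weyl element -/
def op (s : Sys L A) (e : L) (u : Lˣ) : A :=
  s.E (e * (u : L)) * s.F (e * (-((u⁻¹ : Lˣ) : L))) * s.E (e * (u : L))

theorem qs_om (s : Sys L A) {ε : L} (hε : ε ^ 2 = ε) (u : Lˣ) :
    (qs s hε).om (Units.map (Ideal.Quotient.mk (Ideal.span {1 - ε})).toMonoidHom u) = op s ε u := by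
  unfold Sys.om op
  have e1 : ((Units.map (Ideal.Quotient.mk (Ideal.span {1 - ε})).toMonoidHom u :
      (L ⧸ Ideal.span {1 - ε})ˣ) : L ⧸ Ideal.span {1 - ε}) = Ideal.Quotient.mk _ (u : L) := rfl
  have e2 : -(((Units.map (Ideal.Quotient.mk (Ideal.span {1 - ε})).toMonoidHom u)⁻¹ :
      (L ⧸ Ideal.span {1 - ε})ˣ) : L ⧸ Ideal.span {1 - ε}) =
      Ideal.Quotient.mk _ (-((u⁻¹ : Lˣ) : L)) := by
    rw [← map_inv, map_neg]
    rfl
  rw [e1, e2, qs_E, qs_F]

theorem om_split (s : Sys L A) {ε : L}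
    (h2 : ∀ a b : L, s.E (ε * a) * s.F ((1 - ε) * b) = s.F ((1 - ε) * b) * s.E (ε * a))
    (h3 : ∀ a b : L, s.E ((1 - ε) * a) * s.F (ε * b) = s.F (ε * b) * s.E ((1 - ε) * a)) (u : Lˣ) :
    s.om u = op s ε u * op s (1 - ε) u := by
  unfold Sys.om op
  obtain ⟨v, hv⟩ : ∃ v : L, v = -((u⁻¹ : Lˣ) : L) := ⟨_, rfl⟩
  rw [← hv]
  have e1 : s.E (u : L) = s.E (ε * (u : L)) * s.E ((1 - ε) * (u : L)) := by
    rw [← s.Eadd]
    congr 1
    ring
  have e2 : s.F v = s.F (ε * v) * s.F ((1 - ε) * v) := by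
    rw [← s.Fadd]
    congr 1
    ring
  rw [e1, e2]
  have c1 := h2 (u : L) v
  have c2 := h3 (u : L) v
  have c3 := s.E_comm (ε * (u : L)) ((1 - ε) * (u : L))
  generalize s.E (ε * (u : L)) = a1 at *
  generalize s.E ((1 - ε) * (u : L)) = a2 at *
  generalize s.F (ε * v) = f1 at *
  generalize s.F ((1 - ε) * v) = f2 at *
  calc a1 * a2 * (f1 * f2) * (a1 * a2) = a1 * (a2 * f1) * f2 * (a1 * a2) := by simp only [mul_assoc]
    _ = a1 * f1 * a2 * (f2 * a1) * a2 := by rw [c2]; simp only [mul_assoc]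
    _ = a1 * f1 * (a2 * a1) * f2 * a2 := by rw [← c1]; simp only [mul_assoc]
    _ = a1 * f1 * a1 * (a2 * f2 * a2) := by rw [← c3]; simp only [mul_assoc]

theorem op_comm_E (s : Sys L A) {ε : L}
    (h2 : ∀ a b : L, s.E (ε * a) * s.F ((1 - ε) * b) = s.F ((1 - ε) * b) * s.E (ε * a)) (u : Lˣ)
    (a : L) : op s (1 - ε) u * s.E (ε * a) = s.E (ε * a) * op s (1 - ε) u := by
  unfold op
  have c1 := h2 a (-((u⁻¹ : Lˣ) : L))
  have c3 := s.E_comm ((1 - ε) * (u : L)) (ε * a)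
  generalize s.E (ε * a) = b at *
  generalize s.E ((1 - ε) * (u : L)) = a2 at *
  generalize s.F ((1 - ε) * (-((u⁻¹ : Lˣ) : L))) = f2 at *
  calc a2 * f2 * a2 * b = a2 * f2 * (a2 * b) := by simp only [mul_assoc]
    _ = a2 * (f2 * b) * a2 := by rw [c3]; simp only [mul_assoc]
    _ = (a2 * b) * f2 * a2 := by rw [← c1]; simp only [mul_assoc]
    _ = b * (a2 * f2 * a2) := by rw [c3]; simp only [mul_assoc]

theorem op_comm_F (s : Sys L A) {ε : L}
    (h3 : ∀ a b : L, s.E ((1 - ε) * a) * s.F (ε * b) = s.F (ε * b) * s.E ((1 - ε) * a)) (u : Lˣ)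
    (a : L) : op s (1 - ε) u * s.F (ε * a) = s.F (ε * a) * op s (1 - ε) u := by
  unfold op
  have c1 := h3 (u : L) a
  have c3 := s.F_comm ((1 - ε) * (-((u⁻¹ : Lˣ) : L))) (ε * a)
  generalize s.F (ε * a) = b at *
  generalize s.E ((1 - ε) * (u : L)) = a2 at *
  generalize s.F ((1 - ε) * (-((u⁻¹ : Lˣ) : L))) = f2 at *
  calc a2 * f2 * a2 * b = a2 * f2 * (a2 * b) := by simp only [mul_assoc]
    _ = a2 * (f2 * b) * a2 := by rw [c1]; simp only [mul_assoc]
    _ = (a2 * b) * f2 * a2 := by rw [c3]; simp only [mul_assoc]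
    _ = b * (a2 * f2 * a2) := by rw [c1]; simp only [mul_assoc]

theorem conj_eq {o1 o2 b : A} (h : o2 * b = b * o2) : o1 * o2 * b * (o1 * o2)⁻¹ = o1 * b * o1⁻¹ := by
  calc o1 * o2 * b * (o1 * o2)⁻¹ = o1 * (o2 * b) * o2⁻¹ * o1⁻¹ := by group
    _ = o1 * (b * o2) * o2⁻¹ * o1⁻¹ := by rw [h]
    _ = _ := by group

theorem qs_weyl (s : Sys L A) {ε : L} (hε : ε ^ 2 = ε)
    (h2 : ∀ a b : L, s.E (ε * a) * s.F ((1 - ε) * b) = s.F ((1 - ε) * b) * s.E (ε * a))
    (h3 : ∀ a b : L, s.E ((1 - ε) * a) * s.F (ε * b) = s.F (ε * b) * s.E ((1 - ε) * a)) {u : Lˣ}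
    (hu : s.Weyl u) :
    (qs s hε).Weyl (Units.map (Ideal.Quotient.mk (Ideal.span {1 - ε})).toMonoidHom u) := by
  constructor
  · intro y
    obtain ⟨a, rfl⟩ := Ideal.Quotient.mk_surjective y
    rw [qs_om, qs_E, ← conj_eq (op_comm_E s h2 u a), ← om_split s h2 h3, hu.1]
    have e : -((((Units.map (Ideal.Quotient.mk (Ideal.span {1 - ε})).toMonoidHom u)⁻¹ :
        (L ⧸ Ideal.span {1 - ε})ˣ) : L ⧸ Ideal.span {1 - ε}) *
        (((Units.map (Ideal.Quotient.mk (Ideal.span {1 - ε})).toMonoidHom u)⁻¹ :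
        (L ⧸ Ideal.span {1 - ε})ˣ) : L ⧸ Ideal.span {1 - ε}) * Ideal.Quotient.mk _ a) =
        Ideal.Quotient.mk _ (-(((u⁻¹ : Lˣ) : L) * ((u⁻¹ : Lˣ) : L) * a)) := by
      rw [← map_inv, map_neg, map_mul, map_mul]
      rfl
    rw [e, qs_F]
    congr 1
    ring
  · intro y
    obtain ⟨a, rfl⟩ := Ideal.Quotient.mk_surjective y
    rw [qs_om, qs_F, ← conj_eq (op_comm_F s h3 u a), ← om_split s h2 h3, hu.2]
    have e : -(((Units.map (Ideal.Quotient.mk (Ideal.span {1 - ε})).toMonoidHom u :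
        (L ⧸ Ideal.span {1 - ε})ˣ) : L ⧸ Ideal.span {1 - ε}) *
        ((Units.map (Ideal.Quotient.mk (Ideal.span {1 - ε})).toMonoidHom u :
        (L ⧸ Ideal.span {1 - ε})ˣ) : L ⧸ Ideal.span {1 - ε}) * Ideal.Quotient.mk _ a) =
        Ideal.Quotient.mk _ (-((u : L) * (u : L) * a)) := by
      rw [map_neg, map_mul, map_mul]
      rfl
    rw [e, qs_E]
    congr 1
    ring

theorem qs_rg {M : ℕ} {x : Lˣ} (hR : Rg L M x) (I : Ideal L) :
    Rg (L ⧸ I) M (Units.map (Ideal.Quotient.mk I).toMonoidHom x) := by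
  have hx : ((Units.map (Ideal.Quotient.mk I).toMonoidHom x : (L ⧸ I)ˣ) : L ⧸ I) =
      Ideal.Quotient.mk I (x : L) := rfl
  have := hR.fin
  refine ⟨Finite.of_surjective _ (Ideal.Quotient.mk_surjective (I := I)), ?_, ?_, hR.four, hR.three,
    ?_, ?_⟩
  · rw [hx, ← map_pow, ← map_add, hR.gold, map_one]
  · rw [hx, ← map_pow, hR.xM, map_neg, map_one]
  · have := hR.two.map (Ideal.Quotient.mk I)
    rwa [map_ofNat] at this
  · intro y
    obtain ⟨a, rfl⟩ := Ideal.Quotient.mk_surjective y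
    obtain ⟨m, n, rfl⟩ := hR.span a
    refine ⟨m, n, ?_⟩
    rw [hx, map_add, map_mul, map_intCast, map_intCast]

end

theorem hSD : StSD := by
  intro L A _ _ s M x hR hw1 hwx ε hε hε1 hF h2 h3
  have hfin := hR.fin
  have hcard : Nat.card (L ⧸ Ideal.span {1 - ε}) < Nat.card L := by
    have hsurj : Function.Surjective (Ideal.Quotient.mk (Ideal.span {1 - ε})) :=
      Ideal.Quotient.mk_surjective
    refine lt_of_le_of_ne (Nat.card_le_card_of_surjective _ hsurj) ?_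
    intro h
    have hfq : Finite (L ⧸ Ideal.span {1 - ε}) := Finite.of_surjective _ hsurj
    have hb : Function.Bijective (Ideal.Quotient.mk (Ideal.span {1 - ε})) := by
      cases nonempty_fintype L
      cases nonempty_fintype (L ⧸ Ideal.span {1 - ε})
      rw [Fintype.bijective_iff_surjective_and_card]
      refine ⟨hsurj, ?_⟩
      rw [← Nat.card_eq_fintype_card, ← Nat.card_eq_fintype_card, h]
    have h0 : Ideal.Quotient.mk (Ideal.span {1 - ε}) (1 - ε) =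
        Ideal.Quotient.mk (Ideal.span {1 - ε}) 0 := by
      rw [map_zero, Ideal.Quotient.eq_zero_iff_mem]
      exact Ideal.mem_span_singleton_self _
    have h1 := hb.1 h0
    exact hε1 (sub_eq_zero.mp h1).symm
  have hmain := hF (L ⧸ Ideal.span {1 - ε})
    (Units.map (Ideal.Quotient.mk (Ideal.span {1 - ε})).toMonoidHom x) (qs_rg hR _) hcard A
    (qs s hε) ?_ (qs_weyl s hε h2 h3 hwx)
  · have e : Subgroup.closure (Set.range (fun a => s.E (ε * a)) ∪
        Set.range (fun a => s.F (ε * a))) = (qs s hε).gp := by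
      unfold Sys.gp
      have e1 : Set.range (fun a => s.E (ε * a)) = Set.range (qs s hε).E := by
        ext g
        constructor
        · rintro ⟨a, rfl⟩
          exact ⟨Ideal.Quotient.mk _ a, qs_E s hε a⟩
        · rintro ⟨y, rfl⟩
          exact ⟨rp _ y, rfl⟩
      have e2 : Set.range (fun a => s.F (ε * a)) = Set.range (qs s hε).F := by
        ext g
        constructor
        · rintro ⟨a, rfl⟩
          exact ⟨Ideal.Quotient.mk _ a, qs_F s hε a⟩
        · rintro ⟨y, rfl⟩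
          exact ⟨rp _ y, rfl⟩
      rw [e1, e2]
    rw [e]
    exact hmain
  · have := qs_weyl s hε h2 h3 hw1
    rwa [map_one] at this

end Pool.Agent.Helper84.GD
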